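import Pool.Agent.H43.G.R_seed8.H300R2.FB.Defs

/-! Task F3 (helper821): number of second frequencies. -/

namespace Pool.Agent.H300R2.FB

open Finset Polynomial
open Pool.Agent.H442R2.EHI

namespace F3

lemma nint_le (x : ℝ) (z : ℤ) : nint x ≤ |x - z| := by
  unfold nint; exact round_le x z

lemma nint_sub_le (x y : ℝ) : nint (x - y) ≤ nint x + nint y := by
  have h := nint_le (x - y) (round x - round y)
  refine h.trans ?_
  unfold nint
  have : x - y - ((round x - round y : ℤ) : ℝ) = (x - round x) - (y - round y) := by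
    push_cast; ring
  rw [this]
  exact abs_sub _ _

lemma nint_small {x : ℝ} (z : ℤ) (hx : |x| ≤ 1 / 4) : |x| ≤ nint (x + z) := by
  unfold nint
  by_cases h : round (x + z) = z
  · rw [h]; simp
  · have h1 : (1 : ℝ) ≤ |((z : ℝ) - (round (x + z) : ℤ))| := by
      have : (1 : ℤ) ≤ |z - round (x + z)| := Int.one_le_abs (by omega)
      exact_mod_cast this
    have h2 : |((z : ℝ) - (round (x + z) : ℤ))| ≤ |x + z - round (x + z)| + |x| := by
      have : ((z : ℝ) - (round (x + z) : ℤ)) = (x + z - round (x + z)) - x := by ring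
      rw [this]; exact abs_sub _ _
    linarith

/-- the key step: `u - round u` is tiny -/
lemma key {j A D K K1 k' : ℕ} (hj : 1 ≤ j) (hD : 1 ≤ D) (hK1 : 1 ≤ K1) (hk1 : K1 ≤ k')
    (hk2 : k' ≤ K) (hKA : 4 * K ≤ A) {u : ℝ} (h1 : ∀ l < j, nint ((k' : ℝ) ^ l * u) ≤ 1 / (A : ℝ))
    (h2 : nint ((k' : ℝ) ^ j * u) ≤ 1 / (D : ℝ)) :
    |u - round u| ≤ 1 / (D * (K1 : ℝ) ^ j) := by
  have hA : (0 : ℝ) < A := by
    have : 0 < A := by omega
    exact_mod_cast this
  have hD' : (0 : ℝ) < D := by exact_mod_cast hD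
  have hK1' : (1 : ℝ) ≤ K1 := by exact_mod_cast hK1
  have hk1' : (K1 : ℝ) ≤ k' := by exact_mod_cast hk1
  have hk' : (1 : ℝ) ≤ k' := hK1'.trans hk1'
  have hkA : (k' : ℝ) / A ≤ 1 / 4 := by
    rw [div_le_div_iff₀ hA (by norm_num)]
    have : 4 * k' ≤ A := by omega
    have : (4 : ℝ) * k' ≤ A := by exact_mod_cast this
    linarith
  set v := u - round u with hv
  have hint : ∀ l : ℕ, (k' : ℝ) ^ l * u = (k' : ℝ) ^ l * v + (((k' : ℤ) ^ l * round u : ℤ) : ℝ) := by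
    intro l
    rw [hv]; push_cast; ring
  have hstep : ∀ l : ℕ, (k' : ℝ) ^ l * |v| ≤ 1 / A →
      (k' : ℝ) ^ (l + 1) * |v| ≤ nint ((k' : ℝ) ^ (l + 1) * u) := by
    intro l hl
    have h3 : |(k' : ℝ) ^ (l + 1) * v| ≤ 1 / 4 := by
      rw [abs_mul, abs_of_nonneg (by positivity : (0 : ℝ) ≤ (k' : ℝ) ^ (l + 1)), pow_succ]
      calc (k' : ℝ) ^ l * k' * |v| = k' * ((k' : ℝ) ^ l * |v|) := by ring
        _ ≤ k' * (1 / A) := by gcongr
        _ = k' / A := by ring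
        _ ≤ 1 / 4 := hkA
    have h4 := nint_small ((k' : ℤ) ^ (l + 1) * round u) h3
    rw [← hint, abs_mul, abs_of_nonneg (by positivity : (0 : ℝ) ≤ (k' : ℝ) ^ (l + 1))] at h4
    exact h4
  have hall : ∀ l : ℕ, l < j → (k' : ℝ) ^ l * |v| ≤ 1 / A := by
    intro l
    induction l with
    | zero =>
      intro hl
      have := h1 0 hl
      rw [pow_zero, one_mul] at this ⊢
      exact this
    | succ l ih =>
      intro hl
      exact (hstep l (ih (by omega))).trans (h1 _ hl)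
  have hfin : (k' : ℝ) ^ j * |v| ≤ 1 / D := by
    obtain ⟨l, rfl⟩ : ∃ l, j = l + 1 := ⟨j - 1, by omega⟩
    exact (hstep l (hall l (by omega))).trans h2
  have hpow : (K1 : ℝ) ^ j ≤ (k' : ℝ) ^ j := pow_le_pow_left₀ (by linarith) hk1' j
  have hpos : (0 : ℝ) < (K1 : ℝ) ^ j := by positivity
  rw [le_div_iff₀ (by positivity)]
  calc |v| * (D * (K1 : ℝ) ^ j) ≤ |v| * (D * (k' : ℝ) ^ j) := by gcongr
    _ = D * ((k' : ℝ) ^ j * |v|) := by ring
    _ ≤ D * (1 / D) := by gcongr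
    _ = 1 := by field_simp

end F3

open Classical in
/-- F3. Number of second frequencies. -/
theorem fibre_full (j : ℕ) (hj : 1 ≤ j) (N A D K K1 k' : ℕ) (hN : 1 ≤ N) (hD : 1 ≤ D)
    (hK1 : 1 ≤ K1) (hk1 : K1 ≤ k') (hk2 : k' ≤ K) (hKA : 4 * K ≤ A) (w : ℕ → ℝ) :
    (((range N).filter (fun h : ℕ =>
      (∀ l < j, nint (w l - (k' : ℝ) ^ l * h / N) ≤ 1 / (2 * (A : ℝ))) ∧
        nint (w j - (k' : ℝ) ^ j * h / N) ≤ 1 / (2 * (D : ℝ)))).card : ℝ) ≤
      4 * N / (D * (K1 : ℝ) ^ j) + 1 := by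
  set S := (range N).filter (fun h : ℕ =>
      (∀ l < j, nint (w l - (k' : ℝ) ^ l * h / N) ≤ 1 / (2 * (A : ℝ))) ∧
        nint (w j - (k' : ℝ) ^ j * h / N) ≤ 1 / (2 * (D : ℝ))) with hS
  have hN' : (0 : ℝ) < N := by exact_mod_cast hN
  have hD' : (0 : ℝ) < D := by exact_mod_cast hD
  have hK1' : (1 : ℝ) ≤ K1 := by exact_mod_cast hK1
  rcases S.eq_empty_or_nonempty with h0 | ⟨h0, hh0⟩
  · rw [h0]; simp only [card_empty, Nat.cast_zero]; positivity
  set R : ℝ := N / (D * (K1 : ℝ) ^ j) with hR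
  have hR0 : 0 ≤ R := by positivity
  set T : Finset ℤ := Finset.Icc (-⌊R⌋) ⌊R⌋ with hT
  let f : ℕ → ℤ := fun h => ((h : ℤ) - h0) - N * round (((h : ℝ) - h0) / N)
  have hmem : ∀ h ∈ S, f h ∈ T := by
    intro h hh
    rw [hS, mem_filter] at hh hh0
    have hu : |((h : ℝ) - h0) / N - round (((h : ℝ) - h0) / N)| ≤ 1 / (D * (K1 : ℝ) ^ j) := by
      refine F3.key hj hD hK1 hk1 hk2 hKA ?_ ?_
      · intro l hl
        have e1 : (k' : ℝ) ^ l * (((h : ℝ) - h0) / N) =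
            (w l - (k' : ℝ) ^ l * h0 / N) - (w l - (k' : ℝ) ^ l * h / N) := by ring
        rw [e1]
        refine (F3.nint_sub_le _ _).trans ?_
        have e2 := hh.2.1 l hl
        have e3 := hh0.2.1 l hl
        have e4 : (1 : ℝ) / (A : ℝ) = 1 / (2 * (A : ℝ)) + 1 / (2 * (A : ℝ)) := by
          by_cases hA : (A : ℝ) = 0
          · rw [hA]; simp
          · field_simp; norm_num
        rw [e4]; linarith
      · have e1 : (k' : ℝ) ^ j * (((h : ℝ) - h0) / N) =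
            (w j - (k' : ℝ) ^ j * h0 / N) - (w j - (k' : ℝ) ^ j * h / N) := by ring
        rw [e1]
        refine (F3.nint_sub_le _ _).trans ?_
        have e2 := hh.2.2
        have e3 := hh0.2.2
        have e4 : (1 : ℝ) / (D : ℝ) = 1 / (2 * (D : ℝ)) + 1 / (2 * (D : ℝ)) := by
          field_simp; norm_num
        rw [e4]; linarith
    have hf : ((f h : ℤ) : ℝ) = N * (((h : ℝ) - h0) / N - round (((h : ℝ) - h0) / N)) := by
      simp only [f]; push_cast; field_simp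
    have hfR : |((f h : ℤ) : ℝ)| ≤ R := by
      rw [hf, abs_mul, abs_of_pos hN', hR]
      calc (N : ℝ) * _ ≤ N * (1 / (D * (K1 : ℝ) ^ j)) := by gcongr
        _ = N / (D * (K1 : ℝ) ^ j) := by ring
    rw [abs_le] at hfR
    rw [hT, mem_Icc]
    constructor
    · have : -(f h) ≤ ⌊R⌋ := Int.le_floor.2 (by push_cast; linarith [hfR.1])
      omega
    · exact Int.le_floor.2 hfR.2
  have hinj : Set.InjOn f (S : Set ℕ) := by
    intro h hh h' hh' hff
    have hh1 := (mem_filter.1 (Finset.mem_coe.1 hh)).1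
    have hh2 := (mem_filter.1 (Finset.mem_coe.1 hh')).1
    rw [mem_range] at hh1 hh2
    simp only [f] at hff
    have e1 : ((h : ℤ) - h') = N * (round (((h : ℝ) - h0) / N) - round (((h' : ℝ) - h0) / N)) := by
      linarith
    have e2 : ((N : ℤ)) ∣ (h : ℤ) - h' := ⟨_, e1⟩
    have e3 : |(h : ℤ) - h'| < N := by rw [abs_lt]; constructor <;> omega
    have e4 := Int.eq_zero_of_abs_lt_dvd e2 e3
    omega
  have hcard : S.card ≤ T.card := Finset.card_le_card_of_injOn f hmem hinj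
  have hTc : (T.card : ℝ) ≤ 2 * R + 1 := by
    rw [hT, Int.card_Icc]
    have hfl : 0 ≤ ⌊R⌋ := Int.floor_nonneg.2 hR0
    have e1 : ((⌊R⌋ + 1 - -⌊R⌋).toNat : ℤ) = 2 * ⌊R⌋ + 1 := by
      rw [Int.toNat_of_nonneg (by omega)]; ring
    have e2 : (((⌊R⌋ + 1 - -⌊R⌋).toNat : ℕ) : ℝ) = 2 * (⌊R⌋ : ℝ) + 1 := by
      have e3 := congrArg (fun z : ℤ => (z : ℝ)) e1
      rw [Int.cast_natCast] at e3
      rw [e3]; push_cast; ring
    rw [e2]
    have := Int.floor_le R
    linarith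
  have h4 : (4 : ℝ) * N / (D * (K1 : ℝ) ^ j) = 4 * R := by rw [hR]; ring
  rw [h4]
  have : (S.card : ℝ) ≤ T.card := by exact_mod_cast hcard
  linarith

end Pool.Agent.H300R2.FB
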