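import Pool.Agent.H43.G.R_seed8.H300R2.FB.Full
import Pool.Agent.H43.G.R_seed8.H202R2.FB_SSUpper

/-!
Bateman-Horn on average over all polynomials of height at most `H`.
-/

namespace Pool.Agent.H300R2.FB

open Finset Polynomial Filter
open Pool.Agent.H442R2.EHI (evt_log_pow evt_log_ge)
open Pool.Agent.H300R2.BH
open Pool.Agent.H202R2.FB (SS_upper)

lemma pv_bounds (F : ℤ[X]) (K : ℕ) : 0 ≤ pv F K ∧ pv F K ≤ K := by
  unfold pv
  constructor
  · positivity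
  · have h1 := card_filter_le (Icc 1 K) (fun k : ℕ => (F.eval (k : ℤ)).toNat.Prime)
    rw [Nat.card_Icc, Nat.add_sub_cancel] at h1
    exact_mod_cast h1

lemma lF_term (F : ℤ[X]) (k : ℕ) (hk : 2 ≤ F.eval (k : ℤ)) :
    0 ≤ 1 / Real.log ((F.eval (k : ℤ) : ℤ) : ℝ) ∧ 1 / Real.log ((F.eval (k : ℤ) : ℤ) : ℝ) ≤ 2 := by
  have h1 : (2:ℝ) ≤ ((F.eval (k : ℤ) : ℤ) : ℝ) := by exact_mod_cast hk
  have h2 : Real.log 2 ≤ Real.log ((F.eval (k : ℤ) : ℤ) : ℝ) := Real.log_le_log (by norm_num) h1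
  have h3 := Real.log_two_gt_d9
  constructor
  · positivity
  · rw [div_le_iff₀ (by linarith)]
    linarith

lemma lF_bounds (F : ℤ[X]) (K : ℕ) : 0 ≤ lF F K ∧ lF F K ≤ 2 * K := by
  unfold lF
  constructor
  · exact sum_nonneg fun k hk => (lF_term F k (mem_filter.mp hk).2).1
  · calc _ ≤ ∑ k ∈ (Icc 1 K).filter (fun k : ℕ => 2 ≤ F.eval (k : ℤ)), (2:ℝ) :=
          sum_le_sum fun k hk => (lF_term F k (mem_filter.mp hk).2).2
      _ ≤ ∑ k ∈ Icc 1 K, (2:ℝ) :=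
          sum_le_sum_of_subset_of_nonneg (filter_subset _ _) fun _ _ _ => by norm_num
      _ = 2 * K := by rw [sum_const, Nat.card_Icc, nsmul_eq_mul, Nat.add_sub_cancel]; ring

/-- the Euler product is at most `log H` for `z = (log H)^E` -/
lemma SS_small (E : ℕ) : ∃ H0 : ℕ, ∀ H : ℕ, H0 ≤ H → 3 ≤ ⌊Real.log H ^ (E + 1)⌋₊ ∧ ∀ F : ℤ[X],
    0 ≤ SS ⌊Real.log H ^ (E + 1)⌋₊ F ∧ SS ⌊Real.log H ^ (E + 1)⌋₊ F ≤ Real.log H := by
  obtain ⟨C, hC⟩ := SS_upper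
  have hloglog : ∀ᶠ x : ℕ in atTop, |C| * ((E + 1) * Real.log (Real.log x)) ≤ Real.log x := by
    have h1 : (fun t : ℝ => Real.log t) =o[atTop] fun t : ℝ => t := Real.isLittleO_log_id_atTop
    have h2 := h1.bound (show (0:ℝ) < 1 / ((|C| + 1) * (E + 1)) by positivity)
    have h3 := (Real.tendsto_log_atTop.comp (tendsto_natCast_atTop_atTop (R := ℝ))).eventually h2
    filter_upwards [h3, evt_log_ge (Real.exp 1)] with x hx hx2
    simp only [Function.comp] at hx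
    have ht0 : 0 < Real.log x := lt_of_lt_of_le (Real.exp_pos 1) hx2
    have hl : 1 ≤ Real.log (Real.log x) := by
      rw [Real.le_log_iff_exp_le ht0]; exact hx2
    rw [Real.norm_of_nonneg (by positivity), Real.norm_of_nonneg ht0.le] at hx
    calc |C| * ((E + 1) * Real.log (Real.log x))
        ≤ (|C| + 1) * ((E + 1) * (1 / ((|C| + 1) * (E + 1)) * Real.log x)) := by
          gcongr
          linarith
      _ = Real.log x := by field_simp
  obtain ⟨H0, hH0⟩ := eventually_atTop.mp (hloglog.and ((evt_log_ge 3).and (eventually_ge_atTop 3)))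
  refine ⟨H0, fun H hH => ?_⟩
  obtain ⟨h1, h2, h3⟩ := hH0 H hH
  set L := Real.log H with hL
  have hz3 : 3 ≤ ⌊L ^ (E + 1)⌋₊ := by
    apply Nat.le_floor
    push_cast
    calc (3:ℝ) ≤ L ^ 1 := by rw [pow_one]; exact h2
      _ ≤ L ^ (E + 1) := pow_le_pow_right₀ (by linarith) (by omega)
  refine ⟨hz3, fun F => ?_⟩
  obtain ⟨h4, h5⟩ := hC _ hz3 F
  refine ⟨h4, h5.trans ?_⟩
  have hzr : (3:ℝ) ≤ (⌊L ^ (E + 1)⌋₊ : ℝ) := by exact_mod_cast hz3
  have h6 : Real.log (⌊L ^ (E + 1)⌋₊ : ℝ) ≤ (E + 1) * Real.log L := by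
    calc Real.log (⌊L ^ (E + 1)⌋₊ : ℝ) ≤ Real.log (L ^ (E + 1)) :=
          Real.log_le_log (by linarith) (Nat.floor_le (by positivity))
      _ = (E + 1) * Real.log L := by rw [Real.log_pow]; push_cast; ring
  have h7 : 0 ≤ Real.log (⌊L ^ (E + 1)⌋₊ : ℝ) := Real.log_nonneg (by linarith)
  calc C * Real.log (⌊L ^ (E + 1)⌋₊ : ℝ) ≤ |C| * ((E + 1) * Real.log L) :=
        mul_le_mul (le_abs_self C) h6 h7 (abs_nonneg C)
    _ ≤ L := h1

theorem mean_full (j : ℕ) (hj : 1 ≤ j) (ε : ℝ) (hε : 0 < ε) (U : ℕ) : ∃ E1 : ℕ, ∀ E : ℕ, E1 ≤ E →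
    ∃ B H0 : ℕ, ∀ H : ℕ, H0 ≤ H → ∀ K : ℕ, (H : ℝ) ^ ε ≤ K → (K : ℝ) * Real.log H ^ B ≤ H →
    ∑ r ∈ bx j (fun _ => H), ∑ a ∈ Ioc 0 (0 + (2 * H + 1)), ∑ d ∈ Ioc 0 H,
      |pv (FP j H r a d) K - SS ⌊Real.log H ^ E⌋₊ (FP j H r a d) * lF (FP j H r a d) K| ≤
      ((bx j (fun _ => H)).card : ℝ) * ((2 * H + 1 : ℕ) : ℝ) * H * K / Real.log H ^ U := by
  classical
  obtain ⟨E1, hbh⟩ := bhF j hj (ε / (j + 2)) (by positivity) (U + 3) (U + 3) (U + 2)
  refine ⟨E1 + 1, fun E hE => ?_⟩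
  obtain ⟨B1, x1, hb⟩ := hbh E (by omega)
  set n := max B1 E1 with hn
  obtain ⟨H1, hpar⟩ := params j hj ε hε U n
  obtain ⟨H2, hSS⟩ := SS_small (E - 1)
  rw [show E - 1 + 1 = E by omega] at hSS
  have hev : ∀ᶠ H : ℕ in atTop, H1 ≤ H ∧ H2 ≤ H ∧ x1 ≤ H ∧ 8 ≤ Real.log H ∧
      Real.log H ^ (U + 2) ≤ (H:ℝ) ^ (1:ℝ) ∧ 1 ≤ H := by
    filter_upwards [eventually_ge_atTop H1, eventually_ge_atTop H2, eventually_ge_atTop x1,
      evt_log_ge 8, evt_log_pow (U + 2) 1 (by norm_num), eventually_ge_atTop 1]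
      with H h1 h2 h3 h4 h5 h6
    exact ⟨h1, h2, h3, h4, h5, h6⟩
  obtain ⟨H0, hH0⟩ := eventually_atTop.mp hev
  refine ⟨n + 1, H0, fun H hH K hK hKH => ?_⟩
  obtain ⟨hH1, hH2, hHx1, hL8, hLH, hHn⟩ := hH0 H hH
  rw [Real.rpow_one] at hLH
  set L := Real.log H with hLdef
  have hL0 : 0 < L := by linarith
  have hL1 : 1 ≤ L := by linarith
  have hLp0 : ∀ n : ℕ, 0 < L ^ n := fun n => by positivity
  have hLp : ∀ n : ℕ, 1 ≤ L ^ n := fun n => one_le_pow₀ hL1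
  have hLmono : ∀ m n : ℕ, m ≤ n → L ^ m ≤ L ^ n := fun m n h => pow_le_pow_right₀ hL1 h
  have hHr : (1:ℝ) ≤ H := by exact_mod_cast hHn
  have hH0' : (0:ℝ) < H := by linarith
  have hK0 : (0:ℝ) < K := lt_of_lt_of_le (Real.rpow_pos_of_pos hH0' _) hK
  set M := ⌈(H:ℝ) / L ^ (U + 2)⌉₊ with hM
  have hMge : (H:ℝ) / L ^ (U + 2) ≤ M := Nat.le_ceil _
  have hMle : (M:ℝ) ≤ 2 * (H / L ^ (U + 2)) := by
    have h1 : (M:ℝ) < H / L ^ (U + 2) + 1 := Nat.ceil_lt_add_one (by positivity)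
    have h2 : 1 ≤ (H:ℝ) / L ^ (U + 2) := by rw [le_div_iff₀ (hLp0 _), one_mul]; exact hLH
    linarith
  have hM1 : 1 ≤ M := by
    have h2 : 0 < (H:ℝ) / L ^ (U + 2) := by positivity
    exact Nat.one_le_iff_ne_zero.mpr (by
      intro h0
      rw [h0] at hMge
      simp only [Nat.cast_zero] at hMge
      linarith)
  obtain ⟨hHx, hLx, hpow, hLx2, hxK, hp⟩ := hpar H hH1 K M hK hKH hMge (4 * H * K ^ j) rfl
  set x := 4 * H * K ^ j with hx
  set z := ⌊L ^ E⌋₊ with hz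
  obtain ⟨hz3, hSSz⟩ := hSS H hH2
  set bc : ℝ := ((bx j (fun _ => H)).card : ℝ) with hbc
  have hbc0 : 0 ≤ bc := Nat.cast_nonneg _
  have hAc : ((Ioc 0 (0 + (2 * H + 1))).card : ℝ) = ((2 * H + 1 : ℕ) : ℝ) := by
    rw [Nat.card_Ioc]; simp
  have hmain := dyad_box j H M hM1 (bx j (fun _ => H)) (Ioc 0 (0 + (2 * H + 1)))
    (fun r a d => |pv (FP j H r a d) K - SS z (FP j H r a d) * lF (FP j H r a d) K|)
    (fun r a d => abs_nonneg _) (3 * L * K) (bc * ((2 * H + 1 : ℕ) : ℝ) * K / L ^ (U + 2))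
    (by
      intro r _ a _ d _
      obtain ⟨h1, h2⟩ := pv_bounds (FP j H r a d) K
      obtain ⟨h3, h4⟩ := lF_bounds (FP j H r a d) K
      obtain ⟨h5, h6⟩ := hSSz (FP j H r a d)
      have h7 : SS z (FP j H r a d) * lF (FP j H r a d) K ≤ L * (2 * K) :=
        mul_le_mul h6 h4 h3 hL0.le
      have h8 : 0 ≤ SS z (FP j H r a d) * lF (FP j H r a d) K := mul_nonneg h5 h3
      have h9 : (K:ℝ) ≤ L * K := le_mul_of_one_le_left hK0.le hL1
      rw [abs_le]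
      constructor <;> linarith)
    (by positivity)
    (by
      intro D hMD hDH
      obtain ⟨p1, p2, p3, p4, p5, p6⟩ := hp D hMD hDH B1 (le_max_left _ _)
      have h1 := hb x (hHx1.trans hHx) z (Nat.floor_le_floor (by
          calc Real.log x ^ E1 ≤ L ^ (E1 + 1) := hpow E1 (le_max_right _ _)
            _ ≤ L ^ E := hLmono _ _ hE)) (by
          calc (z:ℝ) ≤ L ^ E := Nat.floor_le (by positivity)
            _ ≤ Real.log x ^ E := by gcongr) K D (2 * H + 1) (2 * H + 1) 0 0 (-(H:ℤ) - 1)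
          (fun _ => H) 1 (by rw [natDegree_zero]; omega) p1 p2 hxK p3 le_rfl (fun _ => le_rfl) p4 p5
          (by
            intro k _
            simp only [eval_zero, Int.cast_zero, abs_zero]
            have : 0 < Real.log x := by linarith
            positivity) p6
      refine h1.trans ?_
      have h2 : (0:ℝ) < Real.log x := by linarith
      calc bc * (((2 * H + 1 : ℕ) : ℝ) * D * K / Real.log x ^ (U + 2))
          ≤ bc * (((2 * H + 1 : ℕ) : ℝ) * D * K / L ^ (U + 2)) := by gcongr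
        _ = _ := by ring)
  refine hmain.trans ?_
  rw [hAc]
  set AH : ℝ := ((2 * H + 1 : ℕ) : ℝ) with hAH
  have hAH0 : 0 ≤ AH := Nat.cast_nonneg _
  calc bc * AH * M * (3 * L * K) + 2 * (bc * AH * K / L ^ (U + 2)) * H
      ≤ bc * AH * (2 * (H / L ^ (U + 2))) * (3 * L * K) + 2 * (bc * AH * K / L ^ (U + 2)) * H := by
        gcongr
    _ = (bc * AH * H * K / L ^ U) * (6 / L + 2 / L ^ 2) := by
        rw [pow_add]
        field_simp
        ring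
    _ ≤ (bc * AH * H * K / L ^ U) * 1 := by
        apply mul_le_mul_of_nonneg_left _ (by positivity)
        have h1 : 6 / L ≤ 6 / 8 := div_le_div_of_nonneg_left (by norm_num) (by norm_num) hL8
        have h2 : 2 / L ^ 2 ≤ 2 / 8 := div_le_div_of_nonneg_left (by norm_num) (by norm_num) (by nlinarith)
        linarith
    _ = _ := mul_one _

end Pool.Agent.H300R2.FB
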